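import Mathlib

set_option autoImplicit false

/-!
# Equal-degree vertices joined by a path of length three (a problem of Erdős and Hajnal)

For every `n ≥ 2`, every graph with `2 n + 1` vertices and at least `n² + n + 1` edges contains two
different vertices of the same degree which are joined by a path of length three. Moreover, for every
`n ≥ 2`, the complete bipartite graph `K_{n, n + 1}` is the only graph with `2 n + 1` vertices and at
least `n² + n` edges without such a pair.

Proof. Let `v` be a vertex of maximum degree `Δ`; then `Δ ≥ n + 1`. If there is a nonadjacent vertex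
`v'` of degree `Δ`, then a neighbour of `v` is not adjacent to any neighbour of `v'`, so it has
degree at most `N - Δ`, and `e ≤ Δ (N - Δ)` (Case 1). If there is an adjacent
vertex `v'` of degree `Δ`, the common neighbours of `v` and `v'` have different degrees (Case 2). If
`v` is the only vertex of degree `Δ`, then a neighbour of `v` of degree larger than `N - Δ + 1` is the
only vertex of its degree, and there are at most two neighbours of degree `N - Δ + 1` (Case 3).
-/

namespace Pool.Agent.Results.MP_b875bc_co.EqualDegreePaths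

open Finset SimpleGraph

variable {V : Type*}

/-- The vertices `x₁` and `x₂` are joined by a path of length three: there are `y₁`, `y₂` such that
`x₁, y₁, y₂, x₂` are pairwise distinct and `x₁ y₁`, `y₁ y₂`, `y₂ x₂` are edges. -/
def JoinedByPathOfLengthThree (G : SimpleGraph V) (x₁ x₂ : V) : Prop :=
  ∃ y₁ y₂ : V, [x₁, y₁, y₂, x₂].Nodup ∧ G.Adj x₁ y₁ ∧ G.Adj y₁ y₂ ∧ G.Adj y₂ x₂

/-- There are two different vertices of the same degree joined by a path of length three. -/
def HasPair [Fintype V] (G : SimpleGraph V) [DecidableRel G.Adj] : Prop :=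
  ∃ x₁ x₂ : V, x₁ ≠ x₂ ∧ G.degree x₁ = G.degree x₂ ∧ JoinedByPathOfLengthThree G x₁ x₂

/-- No two different vertices of equal degree are joined by a path of length three. -/
def Good [Fintype V] (G : SimpleGraph V) [DecidableRel G.Adj] : Prop :=
  ∀ x x' y z : V, x ≠ x' → G.degree x = G.degree x' → x ≠ z → y ≠ x' →
    G.Adj x y → G.Adj y z → G.Adj z x' → False

variable [Fintype V] [DecidableEq V] (G : SimpleGraph V) [DecidableRel G.Adj]

variable {G}

omit [DecidableEq V] in
lemma disj (H : Good G) {v v' : V} (hne : v ≠ v') (hd : G.degree v = G.degree v')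
    (hna : ¬ G.Adj v v') {y z : V} (hy : G.Adj v y) (hz : G.Adj y z) : ¬ G.Adj v' z := by
  intro hz'
  refine H v v' y z hne hd ?_ ?_ hy hz hz'.symm
  · rintro rfl; exact hna hz'.symm
  · rintro rfl; exact hna hy

lemma nonadj_bound (H : Good G) {v v' : V} (hne : v ≠ v') (hd : G.degree v = G.degree v')
    (hna : ¬ G.Adj v v') {y : V} (hy : G.Adj v y) :
    G.degree y + G.degree v ≤ Fintype.card V := by
  have h : Disjoint (G.neighborFinset y) (G.neighborFinset v') := by
    rw [Finset.disjoint_left]
    intro z hz hz'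
    rw [mem_neighborFinset] at hz hz'
    exact disj H hne hd hna hy hz hz'
  rw [hd, ← G.card_neighborFinset_eq_degree, ← G.card_neighborFinset_eq_degree,
    ← Finset.card_union_of_disjoint h]
  exact Finset.card_le_univ _

lemma sum_split (v : V) : 2 * #G.edgeFinset =
    ∑ x ∈ G.neighborFinset v, G.degree x + ∑ x ∈ (G.neighborFinset v)ᶜ, G.degree x := by
  rw [← G.sum_degrees_eq_twice_card_edges, Finset.sum_add_sum_compl]

/-- Case 1: two nonadjacent vertices of maximum degree. -/
lemma case1 (H : Good G) {v v' : V} (hne : v ≠ v') (hd : G.degree v = G.degree v')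
    (hna : ¬ G.Adj v v') (hmax : ∀ x, G.degree x ≤ G.degree v) :
    #G.edgeFinset ≤ G.degree v * (Fintype.card V - G.degree v) := by
  have h1 : ∑ x ∈ G.neighborFinset v, G.degree x ≤
      G.degree v * (Fintype.card V - G.degree v) := by
    rw [← smul_eq_mul]
    conv_rhs => rw [← G.card_neighborFinset_eq_degree v]
    refine Finset.sum_le_card_nsmul _ _ _ fun y hy => ?_
    rw [mem_neighborFinset] at hy
    have := nonadj_bound H hne hd hna hy
    rw [G.card_neighborFinset_eq_degree v]
    omega
  have h2 : ∑ x ∈ (G.neighborFinset v)ᶜ, G.degree x ≤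
      (Fintype.card V - G.degree v) * G.degree v := by
    rw [← smul_eq_mul]
    have : Fintype.card V - G.degree v = #((G.neighborFinset v)ᶜ) := by
      rw [Finset.card_compl, G.card_neighborFinset_eq_degree]
    rw [this]
    exact Finset.sum_le_card_nsmul _ _ _ fun y _ => hmax y
  have h3 := sum_split (G := G) v
  nlinarith

/-- Structure in the case of equality in Case 1. -/
lemma case1_eq (H : Good G) {n : ℕ} (hV : Fintype.card V = 2 * n + 1)
    (he : n ^ 2 + n ≤ #G.edgeFinset) {v v' : V} (hne : v ≠ v')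
    (hd : G.degree v = G.degree v') (hna : ¬ G.Adj v v') (hmax : ∀ x, G.degree x ≤ G.degree v)
    (hbig : n + 1 ≤ G.degree v) :
    #G.edgeFinset = n ^ 2 + n ∧
    ∃ S : Finset V, #S = n ∧ ∀ x y, G.Adj x y ↔ (x ∈ S ∧ y ∉ S ∨ x ∉ S ∧ y ∈ S) := by
  have hc := case1 H hne hd hna hmax
  have hlt : G.degree v < Fintype.card V := G.degree_lt_card_verts v
  obtain ⟨j, hj⟩ : ∃ j, G.degree v = n + 1 + j := ⟨G.degree v - (n + 1), by omega⟩
  have hj0 : j = 0 := by
    rw [hj, hV] at hc
    obtain ⟨k, hk⟩ : ∃ k, n = k + j := ⟨n - j, by omega⟩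
    have : 2 * n + 1 - (n + 1 + j) = k := by omega
    rw [this] at hc
    subst hk
    nlinarith
  subst hj0
  have hD : G.degree v = n + 1 := by omega
  -- all vertices outside N(v) have degree n + 1, all vertices in N(v) have degree n
  have h1 : ∀ y ∈ G.neighborFinset v, G.degree y ≤ n := by
    intro y hy
    rw [mem_neighborFinset] at hy
    have := nonadj_bound H hne hd hna hy
    omega
  have h3 := sum_split (G := G) v
  have hcN : #(G.neighborFinset v) = n + 1 := by rw [G.card_neighborFinset_eq_degree, hD]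
  have hcS : #((G.neighborFinset v)ᶜ) = n := by
    rw [Finset.card_compl, hcN, hV]; omega
  have h2 : ∀ x ∈ (G.neighborFinset v)ᶜ, G.degree x ≤ n + 1 := fun x _ => hD ▸ hmax x
  have s1 : ∑ x ∈ G.neighborFinset v, G.degree x ≤ (n + 1) * n := by
    have := Finset.sum_le_card_nsmul _ _ _ h1
    rwa [hcN, smul_eq_mul] at this
  have s2 : ∑ x ∈ (G.neighborFinset v)ᶜ, G.degree x ≤ n * (n + 1) := by
    have := Finset.sum_le_card_nsmul _ _ _ h2
    rwa [hcS, smul_eq_mul] at this
  have s1' : ∑ x ∈ G.neighborFinset v, G.degree x = ∑ x ∈ G.neighborFinset v, n := by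
    rw [Finset.sum_const, hcN, smul_eq_mul]; nlinarith
  have s2' : ∑ x ∈ (G.neighborFinset v)ᶜ, G.degree x =
      ∑ x ∈ (G.neighborFinset v)ᶜ, (n + 1) := by
    rw [Finset.sum_const, hcS, smul_eq_mul]; nlinarith
  have t1 : ∀ y ∈ G.neighborFinset v, G.degree y = n :=
    (Finset.sum_eq_sum_iff_of_le h1).1 s1'
  have t2 : ∀ x ∈ (G.neighborFinset v)ᶜ, G.degree x = n + 1 :=
    (Finset.sum_eq_sum_iff_of_le h2).1 s2'
  -- the complement of N(v) is independent
  have hind : ∀ p ∈ (G.neighborFinset v)ᶜ, ∀ q ∈ (G.neighborFinset v)ᶜ, ¬ G.Adj p q := by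
    intro p hp q hq hpq
    have hpv : ¬ G.Adj v p := by simpa using hp
    have hqv : ¬ G.Adj v q := by simpa using hq
    have hne' : v ≠ p := by rintro rfl; exact hqv hpq
    have hsub : G.neighborFinset q ⊆ (G.neighborFinset v)ᶜ.erase q := by
      intro y hy
      rw [mem_neighborFinset] at hy
      rw [Finset.mem_erase, Finset.mem_compl, mem_neighborFinset]
      refine ⟨hy.ne', fun hvy => ?_⟩
      exact disj H hne' (by rw [hD, t2 p hp]) hpv hvy hy.symm hpq
    have := Finset.card_le_card hsub
    rw [Finset.card_erase_of_mem hq, hcS, G.card_neighborFinset_eq_degree, t2 q hq] at this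
    omega
  have hN : ∀ p ∈ (G.neighborFinset v)ᶜ, G.neighborFinset p = G.neighborFinset v := by
    intro p hp
    refine Finset.eq_of_subset_of_card_le ?_ ?_
    · intro y hy
      by_contra hyn
      exact hind p hp y (Finset.mem_compl.2 hyn) ((mem_neighborFinset _ _ _).1 hy)
    · rw [hcN, G.card_neighborFinset_eq_degree, t2 p hp]
  have hM : ∀ y ∈ G.neighborFinset v, G.neighborFinset y = (G.neighborFinset v)ᶜ := by
    intro y hy
    symm
    refine Finset.eq_of_subset_of_card_le ?_ ?_
    · intro p hp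
      have : y ∈ G.neighborFinset p := by rw [hN p hp]; exact hy
      rw [mem_neighborFinset] at this ⊢
      exact this.symm
    · rw [hcS, G.card_neighborFinset_eq_degree, t1 y hy]
  refine ⟨?_, (G.neighborFinset v)ᶜ, hcS, fun x y => ?_⟩
  · rw [hD, hV] at hc
    have : 2 * n + 1 - (n + 1) = n := by omega
    rw [this] at hc
    nlinarith
  by_cases hx : x ∈ G.neighborFinset v
  · rw [← mem_neighborFinset, hM x hx]
    have hx' : x ∉ (G.neighborFinset v)ᶜ := by simpa using hx
    tauto
  · have hx' : x ∈ (G.neighborFinset v)ᶜ := by simpa using hx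
    rw [← mem_neighborFinset, hN x hx']
    have : y ∈ G.neighborFinset v ↔ y ∉ (G.neighborFinset v)ᶜ := by simp
    tauto

/-- A neighbour `y` of the unique vertex `v` of maximum degree which has a partner of the same
degree has degree at most `w + 2`, where `w` is the number of vertices outside `N[v]`. -/
lemma partner (H : Good G) {v : V} (hu : ∀ x, x ≠ v → G.degree x < G.degree v) {w : ℕ}
    (hw : #((insert v (G.neighborFinset v))ᶜ) = w) {y y' : V} (hy : G.Adj v y) (hne : y ≠ y')
    (hd : G.degree y = G.degree y') :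
    G.degree y ≤ w + 2 ∧ (G.degree y = w + 2 → G.Adj y y' ∧ G.Adj v y') := by
  have hyv : y ≠ v := hy.ne'
  have hy'v : y' ≠ v := by
    rintro rfl
    have := hu y hyv
    omega
  have key : ∀ z, G.Adj y' z → z ≠ y → z ≠ v → z ∈ (insert v (G.neighborFinset v))ᶜ := by
    intro z hz hzy hzv
    rw [Finset.mem_compl, Finset.mem_insert, mem_neighborFinset]
    rintro (h | h)
    · exact hzv h
    · exact H y y' v z hne hd hzy.symm hy'v.symm hy.symm h hz.symm
  have c1 : ∀ S : Finset V, #(insert y (insert v S)) ≤ #S + 2 := fun S => by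
    have h1 := Finset.card_insert_le y (insert v S)
    have h2 := Finset.card_insert_le v S
    omega
  refine ⟨?_, fun hdeg => ⟨?_, ?_⟩⟩
  · rw [hd, ← G.card_neighborFinset_eq_degree, ← hw]
    refine le_trans (Finset.card_le_card ?_) (c1 _)
    intro z hz
    rw [mem_neighborFinset] at hz
    by_cases h1 : z = y
    · simp [h1]
    by_cases h2 : z = v
    · simp [h2]
    · exact Finset.mem_insert_of_mem (Finset.mem_insert_of_mem (key z hz h1 h2))
  · by_contra hna
    have : #(G.neighborFinset y') ≤ #(insert v (insert v (G.neighborFinset v))ᶜ) := by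
      refine Finset.card_le_card ?_
      intro z hz
      rw [mem_neighborFinset] at hz
      have h1 : z ≠ y := by rintro rfl; exact hna hz.symm
      by_cases h2 : z = v
      · simp [h2]
      · exact Finset.mem_insert_of_mem (key z hz h1 h2)
    have h3 := Finset.card_insert_le v (insert v (G.neighborFinset v))ᶜ
    rw [G.card_neighborFinset_eq_degree] at this
    omega
  · by_contra hna
    have : #(G.neighborFinset y') ≤ #(insert y (insert v (G.neighborFinset v))ᶜ) := by
      refine Finset.card_le_card ?_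
      intro z hz
      rw [mem_neighborFinset] at hz
      have h1 : z ≠ v := by rintro rfl; exact hna hz.symm
      by_cases h2 : z = y
      · simp [h2]
      · exact Finset.mem_insert_of_mem (key z hz h2 h1)
    have h3 := Finset.card_insert_le y (insert v (G.neighborFinset v))ᶜ
    rw [G.card_neighborFinset_eq_degree] at this
    omega

lemma sum_Ico (w m : ℕ) :
    2 * ∑ k ∈ Finset.Ico (w + 3) (w + 3 + m), (k - (w + 1)) + 2 = (m + 1) * (m + 2) := by
  induction m with
  | zero => simp
  | succ m ih =>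
    rw [← Nat.add_assoc, Finset.sum_Ico_succ_top (by omega), Nat.mul_add]
    have : w + 3 + m - (w + 1) = m + 2 := by omega
    rw [this]
    nlinarith

/-- The excess of the degrees of the neighbours of `v`. -/
lemma excess (H : Good G) {v : V} (hu : ∀ x, x ≠ v → G.degree x < G.degree v) {w m : ℕ}
    (hw : #((insert v (G.neighborFinset v))ᶜ) = w) (hm : G.degree v = w + 3 + m) :
    ∃ a b : ℕ, ∑ y ∈ G.neighborFinset v, G.degree y ≤ G.degree v * (w + 1) + a + b ∧
      a ≤ 2 ∧ 2 * b + 2 ≤ (m + 1) * (m + 2) ∧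
      (a = 2 → ∃ y y', y ≠ y' ∧ G.Adj v y ∧ G.Adj v y' ∧ G.Adj y y' ∧ G.degree y = w + 2 ∧
        G.degree y' = w + 2) ∧
      (b ≠ 0 → ∃ u, G.Adj v u ∧ w + 3 ≤ G.degree u) := by
  classical
  set S1 := (G.neighborFinset v).filter (fun y => G.degree y = w + 2) with hS1
  set S2 := (G.neighborFinset v).filter (fun y => w + 3 ≤ G.degree y) with hS2
  have hinj : Set.InjOn (fun x => G.degree x) (S2 : Set V) := by
    intro y hy y' hy' hd
    simp only at hd
    rw [Finset.mem_coe, hS2, Finset.mem_filter, mem_neighborFinset] at hy hy'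
    by_contra hne
    have := (partner H hu hw hy.1 hne hd).1
    omega
  refine ⟨#S1, ∑ y ∈ S2, (G.degree y - (w + 1)), ?_, ?_, ?_, ?_, ?_⟩
  · have h1 : ∑ y ∈ G.neighborFinset v, G.degree y ≤ ∑ y ∈ G.neighborFinset v,
        ((w + 1) + (if G.degree y = w + 2 then 1 else 0) +
          (if w + 3 ≤ G.degree y then G.degree y - (w + 1) else 0)) := by
      refine Finset.sum_le_sum fun y _ => ?_
      split_ifs <;> omega
    refine h1.trans ?_
    rw [Finset.sum_add_distrib, Finset.sum_add_distrib, Finset.sum_const, smul_eq_mul,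
      G.card_neighborFinset_eq_degree, ← Finset.sum_filter, ← Finset.sum_filter,
      Finset.sum_const, smul_eq_mul, mul_one]
  · by_contra hc
    obtain ⟨y, hy, y', hy', y'', hy'', h1, h2, h3⟩ := Finset.two_lt_card.1 (not_le.1 hc)
    rw [hS1, Finset.mem_filter, mem_neighborFinset] at hy hy' hy''
    have hadj := ((partner H hu hw hy''.1 (Ne.symm h3) (by omega : G.degree y'' = G.degree y')).2
      hy''.2).1
    have hv : v ≠ y' := hy'.1.ne
    exact H y y' v y'' h1 (by omega) h2 hv hy.1.symm hy''.1 hadj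
  · have h1 : ∑ y ∈ S2, (G.degree y - (w + 1)) = ∑ k ∈ S2.image (fun x => G.degree x), (k - (w + 1)) := by
      rw [Finset.sum_image hinj]
    have h2 : S2.image (fun x => G.degree x) ⊆ Finset.Ico (w + 3) (w + 3 + m) := by
      intro k hk
      rw [Finset.mem_image] at hk
      obtain ⟨y, hy, rfl⟩ := hk
      rw [hS2, Finset.mem_filter, mem_neighborFinset] at hy
      have := hu y hy.1.ne'
      rw [Finset.mem_Ico]
      omega
    have h3 := Finset.sum_le_sum_of_subset (f := fun k => k - (w + 1)) h2
    have h4 := sum_Ico w m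
    rw [h1]
    omega
  · intro h2
    obtain ⟨y, y', hne, hSS⟩ := Finset.card_eq_two.1 h2
    have hy : y ∈ S1 := by rw [hSS]; simp
    have hy' : y' ∈ S1 := by rw [hSS]; simp
    rw [hS1, Finset.mem_filter, mem_neighborFinset] at hy hy'
    have := (partner H hu hw hy.1 hne (by omega)).2 hy.2
    exact ⟨y, y', hne, hy.1, hy'.1, this.1, hy.2, hy'.2⟩
  · intro hb
    obtain ⟨u, hu1, -⟩ := Finset.exists_ne_zero_of_sum_ne_zero hb
    rw [hS2, Finset.mem_filter, mem_neighborFinset] at hu1
    exact ⟨u, hu1⟩

/-- Case 3: the vertex `v` of maximum degree is unique. -/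
lemma case3 (H : Good G) {n : ℕ} (hn : 2 ≤ n) (hV : Fintype.card V = 2 * n + 1)
    (he : n ^ 2 + n ≤ #G.edgeFinset) {v : V} (hu : ∀ x, x ≠ v → G.degree x < G.degree v)
    (hbig : n + 1 ≤ G.degree v) : False := by
  obtain ⟨w, hw⟩ : ∃ w, #((insert v (G.neighborFinset v))ᶜ) = w := ⟨_, rfl⟩
  have hwN : w + 1 + G.degree v = 2 * n + 1 := by
    rw [← hV, ← hw, Finset.card_compl, Finset.card_insert_of_notMem (by simp),
      G.card_neighborFinset_eq_degree]
    have := G.degree_lt_card_verts v
    omega
  have hsplit := sum_split (G := G) v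
  have hcompl : (G.neighborFinset v)ᶜ = insert v (insert v (G.neighborFinset v))ᶜ := by
    ext x
    simp only [Finset.mem_compl, Finset.mem_insert, mem_neighborFinset]
    by_cases hx : x = v
    · subst hx; simp
    · simp [hx]
  have hW : ∑ x ∈ (G.neighborFinset v)ᶜ, G.degree x ≤ G.degree v + w * (G.degree v - 1) := by
    rw [hcompl, Finset.sum_insert (by simp), ← hw, ← smul_eq_mul]
    refine Nat.add_le_add_left (Finset.sum_le_card_nsmul _ _ _ fun x hx => ?_) _
    have hxv : x ≠ v := by
      rintro rfl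
      simp at hx
    have := hu x hxv
    omega
  have hsq : n ^ 2 = n * n := sq n
  -- the parameter `j` with `deg v = n + j`
  obtain ⟨j, hj⟩ : ∃ j, G.degree v = n + 1 + j := ⟨G.degree v - (n + 1), by omega⟩
  have hwj : n = w + j + 1 := by omega
  rcases Nat.eq_zero_or_pos j with rfl | hjpos
  · -- `m = 0`: there is no excess
    have h1 : ∑ y ∈ G.neighborFinset v, G.degree y ≤ G.degree v * (w + 1) := by
      have h2 : ∀ y ∈ G.neighborFinset v, G.degree y ≤ w + 1 := by
        intro y hy
        rw [mem_neighborFinset] at hy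
        have := hu y hy.ne'
        omega
      have := Finset.sum_le_card_nsmul _ _ _ h2
      rwa [G.card_neighborFinset_eq_degree, smul_eq_mul] at this
    have h3 : G.degree v - 1 = n := by omega
    rw [h3] at hW
    rw [hj] at h1 hW
    subst hwj
    nlinarith
  · obtain ⟨i, rfl⟩ : ∃ i, j = i + 1 := ⟨j - 1, by omega⟩
    obtain ⟨a, b, h1, ha, hb, ha2, hb2⟩ := excess H hu (m := 2 * i + 1) hw (by omega)
    have h3 : G.degree v - 1 = n + i + 1 := by omega
    rw [h3] at hW
    rw [hj] at h1 hW
    have h4 : 2 * #G.edgeFinset ≤ 2 * (n * n) + n + 2 := by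
      subst hwj
      nlinarith
    have hn2 : n = 2 := by nlinarith
    subst hn2
    have hi : i = 0 ∧ w = 0 := by omega
    obtain ⟨rfl, rfl⟩ := hi
    have ha' : a = 2 := by omega
    have hb' : b ≠ 0 := by omega
    obtain ⟨y, y', hne, hy, hy', hyy', hdy, hdy'⟩ := ha2 ha'
    obtain ⟨u, hvu, hdu⟩ := hb2 hb'
    have huy : u ≠ y := by rintro rfl; omega
    have huy' : u ≠ y' := by rintro rfl; omega
    have n1 : ¬ G.Adj u y := by
      intro h
      have : ({v, y', u} : Finset V) ⊆ G.neighborFinset y := by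
        intro z hz
        simp only [Finset.mem_insert, Finset.mem_singleton] at hz
        rw [mem_neighborFinset]
        rcases hz with rfl | rfl | rfl
        · exact hy.symm
        · exact hyy'
        · exact h.symm
      have h5 := Finset.card_le_card this
      rw [G.card_neighborFinset_eq_degree, hdy, Finset.card_eq_three.2
        ⟨v, y', u, hy'.ne, hvu.ne, huy'.symm, rfl⟩] at h5
      omega
    have n2 : ¬ G.Adj u y' := by
      intro h
      have : ({v, y, u} : Finset V) ⊆ G.neighborFinset y' := by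
        intro z hz
        simp only [Finset.mem_insert, Finset.mem_singleton] at hz
        rw [mem_neighborFinset]
        rcases hz with rfl | rfl | rfl
        · exact hy'.symm
        · exact hyy'.symm
        · exact h.symm
      have h5 := Finset.card_le_card this
      rw [G.card_neighborFinset_eq_degree, hdy', Finset.card_eq_three.2
        ⟨v, y, u, hy.ne, hvu.ne, huy.symm, rfl⟩] at h5
      omega
    have h6 : G.neighborFinset u ⊆ ({u, y, y'} : Finset V)ᶜ := by
      intro z hz
      rw [mem_neighborFinset] at hz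
      rw [Finset.mem_compl]
      simp only [Finset.mem_insert, Finset.mem_singleton]
      rintro (rfl | rfl | rfl)
      · exact G.irrefl hz
      · exact n1 hz
      · exact n2 hz
    have h7 := Finset.card_le_card h6
    rw [G.card_neighborFinset_eq_degree, Finset.card_compl, hV, Finset.card_eq_three.2
        ⟨u, y, y', huy, huy', hne, rfl⟩] at h7
    omega

lemma sum_Icc (s : ℕ) : 2 * ∑ k ∈ Finset.Icc 2 (s + 1), k + 2 = (s + 1) * (s + 2) := by
  induction s with
  | zero => simp
  | succ s ih =>
    rw [Finset.sum_Icc_succ_top (by omega), Nat.mul_add]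
    nlinarith

/-- Case 2: two adjacent vertices of maximum degree, and all other vertices of maximum degree are
adjacent to the first one. -/
lemma case2 (H : Good G) {n : ℕ} (hn : 2 ≤ n) (hV : Fintype.card V = 2 * n + 1)
    (he : n ^ 2 + n ≤ #G.edgeFinset) {v v' : V} (hadj : G.Adj v v')
    (hd : G.degree v = G.degree v') (hmax : ∀ x, G.degree x ≤ G.degree v)
    (hnon : ∀ x, x ≠ v → ¬ G.Adj v x → G.degree x ≠ G.degree v)
    (hbig : n + 1 ≤ G.degree v) : False := by
  have hne : v ≠ v' := hadj.ne
  obtain ⟨A, hA⟩ : ∃ A, A = (G.neighborFinset v).erase v' := ⟨_, rfl⟩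
  obtain ⟨B, hB⟩ : ∃ B, B = (G.neighborFinset v').erase v := ⟨_, rfl⟩
  have mA : ∀ y, y ∈ A ↔ y ≠ v' ∧ G.Adj v y := fun y => by
    rw [hA, Finset.mem_erase, mem_neighborFinset]
  have mB : ∀ y, y ∈ B ↔ y ≠ v ∧ G.Adj v' y := fun y => by
    rw [hB, Finset.mem_erase, mem_neighborFinset]
  have cA : #A + 1 = G.degree v := by
    rw [hA, Finset.card_erase_of_mem ((mem_neighborFinset _ _ _).2 hadj),
      G.card_neighborFinset_eq_degree]
    omega
  have cB : #B + 1 = G.degree v := by
    rw [hB, Finset.card_erase_of_mem ((mem_neighborFinset _ _ _).2 hadj.symm),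
      G.card_neighborFinset_eq_degree]
    omega
  have noAB : ∀ y ∈ A, ∀ z ∈ B, ¬ G.Adj y z := by
    intro y hy z hz hyz
    rw [mA] at hy
    rw [mB] at hz
    exact H v v' y z hne hd hz.1.symm hy.1 hy.2 hyz hz.2.symm
  have hinj : Set.InjOn (fun x => G.degree x) ((A ∩ B : Finset V) : Set V) := by
    intro y hy y' hy' hdeg
    simp only at hdeg
    rw [Finset.mem_coe, Finset.mem_inter, mA, mB] at hy hy'
    by_contra hyy
    exact H y y' v v' hyy hdeg hy.1.1 hy'.2.1.symm hy.1.2.symm hadj hy'.2.2
  obtain ⟨c, hc⟩ : ∃ c, #(A ∩ B) = c := ⟨_, rfl⟩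
  obtain ⟨s, hs⟩ : ∃ s, #((A ∪ B)ᶜ) = s := ⟨_, rfl⟩
  have hvm : v ∈ (A ∪ B)ᶜ := by
    rw [Finset.mem_compl, Finset.mem_union, mA, mB]
    rintro (h | h)
    · exact G.irrefl h.2
    · exact h.1 rfl
  have hvm' : v' ∈ (A ∪ B)ᶜ := by
    rw [Finset.mem_compl, Finset.mem_union, mA, mB]
    rintro (h | h)
    · exact h.1 rfl
    · exact G.irrefl h.2
  have hsub : ({v, v'} : Finset V) ⊆ (A ∪ B)ᶜ := by
    intro z hz
    simp only [Finset.mem_insert, Finset.mem_singleton] at hz
    rcases hz with rfl | rfl
    · exact hvm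
    · exact hvm'
  have hs2 : 2 ≤ s := by
    rw [← hs, ← Finset.card_pair hne]
    exact Finset.card_le_card hsub
  have hU : #(A ∪ B) + c = #A + #B := by rw [← hc, Finset.card_union_add_card_inter]
  have hsN : s + #(A ∪ B) = 2 * n + 1 := by
    rw [← hs, ← hV, Finset.card_compl]
    have := Finset.card_le_univ (A ∪ B)
    omega
  -- degrees in `C = A ∩ B`
  have dC : ∀ y ∈ A ∩ B, 2 ≤ G.degree y ∧ G.degree y ≤ s := by
    intro y hy
    rw [Finset.mem_inter] at hy
    have hyA := (mA y).1 hy.1
    have hyB := (mB y).1 hy.2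
    constructor
    · rw [← G.card_neighborFinset_eq_degree, ← Finset.card_pair hne]
      refine Finset.card_le_card ?_
      intro z hz
      simp only [Finset.mem_insert, Finset.mem_singleton] at hz
      rw [mem_neighborFinset]
      rcases hz with rfl | rfl
      · exact hyA.2.symm
      · exact hyB.2.symm
    · rw [← G.card_neighborFinset_eq_degree, ← hs]
      refine Finset.card_le_card ?_
      intro z hz
      rw [mem_neighborFinset] at hz
      rw [Finset.mem_compl, Finset.mem_union]
      rintro (h | h)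
      · exact noAB z h y hy.2 hz.symm
      · exact noAB y hy.1 z h hz
  have imC : (A ∩ B).image (fun x => G.degree x) ⊆ Finset.Icc 2 s := by
    intro k hk
    rw [Finset.mem_image] at hk
    obtain ⟨y, hy, rfl⟩ := hk
    rw [Finset.mem_Icc]
    exact dC y hy
  have hcs : c + 1 ≤ s := by
    have := Finset.card_le_card imC
    rw [Finset.card_image_of_injOn hinj, hc, Nat.card_Icc] at this
    omega
  have hD : G.degree v = n + 1 := by omega
  have hsc : s = c + 1 := by omega
  have hcn : c ≤ n := by
    rw [← hc]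
    have := Finset.card_le_card (Finset.inter_subset_left : A ∩ B ⊆ A)
    omega
  have hc1 : 1 ≤ c := by omega
  have hcn' : 2 ≤ c → c + 1 ≤ n := by
    intro h2
    have : (A ∩ B).image (fun x => G.degree x) ⊆ Finset.Icc 2 n := by
      intro k hk
      rw [Finset.mem_image] at hk
      obtain ⟨y, hy, rfl⟩ := hk
      rw [Finset.mem_Icc]
      refine ⟨(dC y hy).1, ?_⟩
      have hle := hmax y
      have hneq : G.degree v ≠ G.degree y := by
        intro heq
        obtain ⟨y1, hy1, hne1⟩ := Finset.exists_mem_ne (by omega : 1 < #(A ∩ B)) y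
        rw [Finset.mem_inter, mA, mB] at hy hy1
        exact H v y y1 v' hy.1.2.ne heq hne hne1 hy1.1.2 hy1.2.2.symm hy.2.2
      omega
    have h3 := Finset.card_le_card this
    rw [Finset.card_image_of_injOn hinj, hc, Nat.card_Icc] at h3
    omega
  have sC : 2 * ∑ y ∈ A ∩ B, G.degree y + 2 ≤ (c + 1) * (c + 2) := by
    have h1 : ∑ y ∈ A ∩ B, G.degree y = ∑ k ∈ (A ∩ B).image (fun x => G.degree x), k := by
      rw [Finset.sum_image hinj]
    have h3 := Finset.sum_le_sum_of_subset (f := fun k => k) imC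
    have h4 := sum_Icc c
    rw [hsc] at h3
    rw [h1]
    omega
  -- degrees in `A \ B` and `B \ A`
  have dA : ∀ y ∈ A \ B, G.degree y ≤ n - 1 := by
    intro y hy
    rw [Finset.mem_sdiff] at hy
    have hyA := (mA y).1 hy.1
    have h1 : G.neighborFinset y ⊆ (insert y (insert v' B))ᶜ := by
      intro z hz
      rw [mem_neighborFinset] at hz
      rw [Finset.mem_compl, Finset.mem_insert, Finset.mem_insert]
      rintro (rfl | rfl | h)
      · exact G.irrefl hz
      · exact hy.2 ((mB y).2 ⟨hyA.2.ne', hz.symm⟩)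
      · exact noAB y hy.1 z h hz
    have h2 := Finset.card_le_card h1
    rw [G.card_neighborFinset_eq_degree, Finset.card_compl, Finset.card_insert_of_notMem,
      Finset.card_insert_of_notMem, hV] at h2
    · omega
    · rw [mB]; rintro ⟨-, h⟩; exact G.irrefl h
    · rw [Finset.mem_insert]
      rintro (h | h)
      · exact hyA.1 h
      · exact hy.2 h
  have dB : ∀ y ∈ B \ A, G.degree y ≤ n - 1 := by
    intro y hy
    rw [Finset.mem_sdiff] at hy
    have hyB := (mB y).1 hy.1
    have h1 : G.neighborFinset y ⊆ (insert y (insert v A))ᶜ := by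
      intro z hz
      rw [mem_neighborFinset] at hz
      rw [Finset.mem_compl, Finset.mem_insert, Finset.mem_insert]
      rintro (rfl | rfl | h)
      · exact G.irrefl hz
      · exact hy.2 ((mA y).2 ⟨hyB.2.ne', hz.symm⟩)
      · exact noAB z h y hy.1 hz.symm
    have h2 := Finset.card_le_card h1
    rw [G.card_neighborFinset_eq_degree, Finset.card_compl, Finset.card_insert_of_notMem,
      Finset.card_insert_of_notMem, hV] at h2
    · omega
    · rw [mA]; rintro ⟨-, h⟩; exact G.irrefl h
    · rw [Finset.mem_insert]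
      rintro (h | h)
      · exact hyB.1 h
      · exact hy.2 h
  have cAB : #(A \ B) + c = n := by
    have := Finset.card_sdiff_add_card_inter A B
    omega
  have cBA : #(B \ A) + c = n := by
    have := Finset.card_sdiff_add_card_inter B A
    rw [Finset.inter_comm] at this
    omega
  have sA : ∑ y ∈ A \ B, G.degree y ≤ #(A \ B) * (n - 1) := by
    rw [← smul_eq_mul]
    exact Finset.sum_le_card_nsmul _ _ _ dA
  have sB : ∑ y ∈ B \ A, G.degree y ≤ #(B \ A) * (n - 1) := by
    rw [← smul_eq_mul]
    exact Finset.sum_le_card_nsmul _ _ _ dB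
  -- the remaining vertices
  have dR : ∀ z ∈ (A ∪ B)ᶜ \ {v, v'}, G.degree z ≤ n := by
    intro z hz
    rw [Finset.mem_sdiff, Finset.mem_compl, Finset.mem_union, mA, mB] at hz
    simp only [Finset.mem_insert, Finset.mem_singleton, not_or, not_and] at hz
    have h1 := hmax z
    have h2 := hnon z hz.2.1 (fun h => hz.1.1 hz.2.2 h)
    omega
  have cR : #((A ∪ B)ᶜ \ {v, v'}) + 2 = s := by
    have := Finset.card_sdiff_add_card_eq_card hsub
    rw [Finset.card_pair hne, hs] at this
    exact this
  have sR : ∑ y ∈ (A ∪ B)ᶜ \ {v, v'}, G.degree y ≤ #((A ∪ B)ᶜ \ {v, v'}) * n := by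
    rw [← smul_eq_mul]
    exact Finset.sum_le_card_nsmul _ _ _ dR
  -- total
  have t1 : 2 * #G.edgeFinset = ∑ x ∈ A ∪ B, G.degree x + ∑ x ∈ (A ∪ B)ᶜ, G.degree x := by
    rw [← G.sum_degrees_eq_twice_card_edges, Finset.sum_add_sum_compl]
  have t2 : ∑ x ∈ A ∪ B, G.degree x =
      ∑ x ∈ A \ B, G.degree x + (∑ x ∈ B \ A, G.degree x + ∑ x ∈ A ∩ B, G.degree x) := by
    have e1 := Finset.sum_sdiff (f := fun x => G.degree x)
      (Finset.subset_union_right : B ⊆ A ∪ B)
    have e2 := Finset.sum_sdiff (f := fun x => G.degree x)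
      (Finset.inter_subset_right : A ∩ B ⊆ B)
    have e3 : (A ∪ B) \ B = A \ B := Finset.union_sdiff_right A B
    have e4 : B \ (A ∩ B) = B \ A := by
      ext x; simp only [Finset.mem_sdiff, Finset.mem_inter]; tauto
    rw [e3] at e1
    rw [e4] at e2
    rw [← e1, ← e2]
  have t3 : ∑ x ∈ (A ∪ B)ᶜ, G.degree x =
      ∑ x ∈ (A ∪ B)ᶜ \ {v, v'}, G.degree x + (G.degree v + G.degree v') := by
    rw [← Finset.sum_sdiff hsub, Finset.sum_pair hne]
  have hcR : #((A ∪ B)ᶜ \ {v, v'}) = c - 1 := by omega
  rw [hcR] at sR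
  have hAB : #(A \ B) = n - c := by omega
  have hBA : #(B \ A) = n - c := by omega
  rw [hAB] at sA
  rw [hBA] at sB
  have hsq : n ^ 2 = n * n := sq n
  obtain ⟨c', rfl⟩ : ∃ c', c = c' + 1 := ⟨c - 1, by omega⟩
  obtain ⟨k, rfl⟩ : ∃ k, n = c' + 1 + k := ⟨n - (c' + 1), by omega⟩
  have e5 : c' + 1 + k - (c' + 1) = k := by omega
  have e6 : c' + 1 + k - 1 = c' + k := by omega
  have e7 : c' + 1 - 1 = c' := by omega
  rw [e5, e6] at sA sB
  rw [e7] at sR
  have hk : 1 ≤ k := by omega
  have h5 : 4 * #G.edgeFinset + 2 ≤ 4 * (k * (c' + k)) + (c' + 1 + 1) * (c' + 1 + 2) +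
      2 * (c' * (c' + 1 + k)) + 4 * (c' + 1 + k + 1) := by
    rw [← hd, hD] at t3
    linarith
  have h6 : 4 * ((c' + 1 + k) * (c' + 1 + k)) + 4 * (c' + 1 + k) + 2 ≤
      4 * (k * (c' + k)) + (c' + 1 + 1) * (c' + 1 + 2) +
      2 * (c' * (c' + 1 + k)) + 4 * (c' + 1 + k + 1) := by
    rw [hsq] at he
    linarith
  clear * - h6 hk
  nlinarith [Nat.zero_le (c' * k), Nat.zero_le (c' * c')]

omit [DecidableEq V] in
lemma good_of_not_hasPair (h : ¬ HasPair G) : Good G := by
  intro x x' y z hxx hd hxz hyx hxy hyz hzx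
  refine h ⟨x, x', hxx, hd, y, z, ?_, hxy, hyz, hzx⟩
  simp only [List.nodup_cons, List.mem_cons, List.not_mem_nil, or_false, not_or,
    not_false_eq_true, List.nodup_nil, and_true]
  exact ⟨⟨hxy.ne, hxz, hxx⟩, ⟨hyz.ne, hyx⟩, hzx.ne⟩

lemma main {n : ℕ} (hn : 2 ≤ n) (hV : Fintype.card V = 2 * n + 1)
    (he : n ^ 2 + n ≤ #G.edgeFinset) (h : ¬ HasPair G) : #G.edgeFinset = n ^ 2 + n ∧
    ∃ S : Finset V, #S = n ∧ ∀ x y, G.Adj x y ↔ (x ∈ S ∧ y ∉ S ∨ x ∉ S ∧ y ∈ S) := by
  have H := good_of_not_hasPair h
  have hne : Nonempty V := Fintype.card_pos_iff.1 (by omega)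
  obtain ⟨v, hv⟩ := G.exists_maximal_degree_vertex
  have hmax : ∀ x, G.degree x ≤ G.degree v := fun x => hv ▸ G.degree_le_maxDegree x
  have hbig : n + 1 ≤ G.degree v := by
    by_contra hlt
    have h1 : ∑ x, G.degree x ≤ Fintype.card V * n := by
      have := Finset.sum_le_card_nsmul (Finset.univ : Finset V) (fun x => G.degree x) n
        (fun x _ => by have := hmax x; omega)
      rwa [smul_eq_mul, Finset.card_univ] at this
    rw [G.sum_degrees_eq_twice_card_edges, hV] at h1
    nlinarith
  by_cases c1 : ∃ v', v' ≠ v ∧ G.degree v' = G.degree v ∧ ¬ G.Adj v v'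
  · obtain ⟨v', h1, h2, h3⟩ := c1
    exact case1_eq H hV he h1.symm h2.symm h3 hmax hbig
  · exfalso
    by_cases c2 : ∃ v', v' ≠ v ∧ G.degree v' = G.degree v
    · obtain ⟨v', h1, h2⟩ := c2
      have hadj : G.Adj v v' := by
        by_contra h3
        exact c1 ⟨v', h1, h2, h3⟩
      exact case2 H hn hV he hadj h2.symm hmax (fun x hx hna hd => c1 ⟨x, hx, hd, hna⟩) hbig
    · refine case3 H hn hV he (v := v) (fun x hx => ?_) hbig
      have h1 := hmax x
      have h2 : G.degree x ≠ G.degree v := fun h => c2 ⟨x, hx, h⟩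
      omega

/-- **The problem of Erdős and Hajnal, for all `n ≥ 2`.** Every graph with `2 n + 1` vertices and
at least `n² + n` edges contains two different vertices of equal degree joined by a path of length
three, unless it has exactly `n² + n` edges and is the complete bipartite graph `K_{n, n + 1}`: there
is a set `S` of `n` vertices such that two vertices are adjacent if and only if exactly one of them is
in `S`. In particular, every graph with `n² + n + 1` edges contains such a pair (`settles_Q1`). -/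
theorem result (n : ℕ) (hn : 2 ≤ n) (V : Type*) [Fintype V] (hV : Fintype.card V = 2 * n + 1)
    (G : SimpleGraph V) [DecidableRel G.Adj] (he : n ^ 2 + n ≤ #G.edgeFinset) :
    HasPair G ∨ (#G.edgeFinset = n ^ 2 + n ∧
      ∃ S : Finset V, #S = n ∧ ∀ x y, G.Adj x y ↔ (x ∈ S ∧ y ∉ S ∨ x ∉ S ∧ y ∈ S)) := by
  classical
  by_cases h : HasPair G
  · exact Or.inl h
  · exact Or.inr (main hn hV he h)

/-- The question as posed. -/
theorem settles_Q1 (n : ℕ) (hn : 2 ≤ n) (V : Type*) [Fintype V]
    (hV : Fintype.card V = 2 * n + 1) (G : SimpleGraph V) [DecidableRel G.Adj]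
    (he : #G.edgeFinset = n ^ 2 + n + 1) :
    ∃ x₁ x₂ : V, x₁ ≠ x₂ ∧ G.degree x₁ = G.degree x₂ ∧ JoinedByPathOfLengthThree G x₁ x₂ := by
  rcases result n hn V hV G (by omega) with h | h
  · exact h
  · omega

end Pool.Agent.Results.MP_b875bc_co.EqualDegreePaths
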